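import Pool.Agent.H93.EG.Targets

/-!
# Green's identity near points of the table
-/

namespace Pool.Agent.H27.EG

open MeasureTheory Set Metric Filter Topology Pool.Agent.H93.EG
open Pool.Agent.H93.BL hiding T_B1 T_B2 T_B3 T_SB T_SC
open Pool.Agent.H93.EN

theorem ai (h1 : T_U1) (h2 : T_GR0) : T_AI := by
  intro ι P δ G N hδ hS x₀ hx₀
  obtain ⟨s, hs, Φ, hΦ, hball⟩ := hS.int x₀ hx₀
  refine ⟨s, hs, ?_⟩
  intro η hη hsupp k
  obtain ⟨hv, hv1, hvI, -, -⟩ := h1 Φ hΦ δ hδ k
  have hcs : HasCompactSupport η :=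
    (isCompact_closedBall x₀ s).of_isClosed_subset (isClosed_tsupport η)
      (hsupp.trans ball_subset_closedBall)
  have hG := h2 (fun x => md (Ml Φ δ x) k) η hv hη hcs
  have hout : ∀ x, x ∉ ball x₀ s → η x = 0 ∧ fderiv ℝ η x = 0 := by
    intro x hx
    have hx' : x ∉ tsupport η := fun h => hx (hsupp h)
    refine ⟨image_eq_zero_of_notMem_tsupport hx', ?_⟩
    exact fderiv_of_notMem_tsupport (𝕜 := ℝ) hx'
  have hin : ∀ x ∈ ball x₀ s, um G k x = md (Ml Φ δ x) k ∧
      ux N k x = fderiv ℝ (fun x => md (Ml Φ δ x) k) x 1 ∧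
      uy N k x = fderiv ℝ (fun x => md (Ml Φ δ x) k) x Complex.I := by
    intro x hx
    obtain ⟨-, hGx, hNx⟩ := hball x hx
    refine ⟨?_, ?_, ?_⟩
    · unfold um
      rw [hGx]
    · rw [hv1 x]
      unfold ux
      rw [hNx]
    · rw [hvI x]
      unfold uy
      rw [hNx]
  have hΩ : ∀ x, x ∉ P.Ω → x ∉ ball x₀ s := fun x hx hb => hx (hball x hb).1
  unfold GId
  rw [setIntegral_eq_integral_of_forall_compl_eq_zero (fun x hx => by
      rw [(hout x (hΩ x hx)).1, zero_mul]),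
    setIntegral_eq_integral_of_forall_compl_eq_zero (fun x hx => by
      rw [(hout x (hΩ x hx)).2]
      simp)]
  refine Eq.trans (integral_congr_ae (ae_of_all _ fun x => ?_)) (hG.trans ?_)
  · by_cases hx : x ∈ ball x₀ s
    · obtain ⟨-, e2, e3⟩ := hin x hx
      simp only [e2, e3]
    · simp only [(hout x hx).1, zero_mul]
  · congr 1
    refine integral_congr_ae (ae_of_all _ fun x => ?_)
    by_cases hx : x ∈ ball x₀ s
    · obtain ⟨e1, e2, e3⟩ := hin x hx
      simp only [e1, e2, e3]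
    · simp [(hout x hx).2]

end Pool.Agent.H27.EG
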