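import Pool.Agent.H93.EG.Targets

/-!
# A limit of functions with gradients tending to zero is constant
-/

namespace Pool.Agent.H27.EG

open MeasureTheory Set Metric Filter Topology Pool.Agent.H93.EG
open Pool.Agent.H93.BL hiding T_B1 T_B2 T_B3 T_SB T_SC
open Pool.Agent.H93.EN

theorem limT (h1 : T_LM1) (h2 : T_LM2) : T_LIM := by
  intro Ω f u hΩ hpc hf hu hui hud hlim1 hlim2
  refine h2 Ω f hΩ hpc hf ?_
  intro x₀ R hR hsub x hx x' hx' s hs
  have hb : ∀ z ∈ ball x₀ R, ball z s ⊆ Ω := by
    intro z hz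
    refine Subset.trans (ball_subset_ball' ?_) hsub
    have := mem_ball.1 hz
    linarith [hs.2]
  have key : ∀ z ∈ ball x₀ R,
      Tendsto (fun n => ∫ y in ball z s, u n y) atTop (𝓝 (∫ y in ball z s, f y)) := by
    intro z hz
    rw [tendsto_iff_norm_sub_tendsto_zero]
    refine squeeze_zero (fun n => norm_nonneg _) (fun n => ?_) hlim1
    rw [← integral_sub ((hui n).mono_set (hb z hz)) (hf.mono_set (hb z hz))]
    refine (norm_integral_le_integral_norm _).trans ?_
    exact setIntegral_mono_set ((hui n).sub hf).norm (ae_of_all _ fun _ => norm_nonneg _)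
      (hb z hz).eventuallyLE
  have hd : Tendsto (fun n => (∫ y in ball x s, u n y) - ∫ y in ball x' s, u n y) atTop
      (𝓝 0) := by
    rw [tendsto_zero_iff_norm_tendsto_zero]
    have h3 : Tendsto (fun n => 2 * R * ∫ x in Ω, ‖fderiv ℝ (u n) x‖) atTop (𝓝 (2 * R * 0)) :=
      hlim2.const_mul _
    rw [mul_zero] at h3
    refine squeeze_zero (fun n => norm_nonneg _) (fun n => ?_) h3
    refine (h1 (u n) x₀ R hR ((hu n).mono hsub) ((hud n).mono_set hsub) x hx x' hx' s hs).trans ?_
    refine mul_le_mul_of_nonneg_left ?_ (by positivity)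
    exact setIntegral_mono_set (hud n) (ae_of_all _ fun _ => norm_nonneg _) hsub.eventuallyLE
  have h := tendsto_nhds_unique hd ((key x hx).sub (key x' hx'))
  exact (sub_eq_zero.1 h.symm)

end Pool.Agent.H27.EG
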